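import Pool.Agent.Helper546_folded.Indec

/-!
# Disjoint subcontinua with interior in a product of indecomposable continua

There is a nondegenerate metrizable indecomposable continuum `X` such that `X × X` contains two
disjoint subcontinua `V`, `W` with nonempty interiors; so `T(W)` misses the interior of `V` and
`T(W) ≠ X × X`.

`X` is the inverse limit of the trees `Z_0, Z_1, ...` with folding bonding maps, where `Z_0` is a triod
with its three tips as marked points, and `Z_(n+1)` is obtained from `Z_n` by attaching one further
copy of `Z_n` at each marked point. With `b : X → Z_0` the projection, `V` is the set of the pairs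
`(x, y)` with `b x`, `b y` at distance at most `1/4`, and `W` is the set of the pairs with `b x`, `b y`
at distance at least `1/2`.
-/

set_option autoImplicit false

open Set Topology

namespace Pool.Agent.Results.MP_cdfe0d_gt.DisjointContinua

/-- `K` is a subcontinuum of the (Hausdorff) space `S`: a nonempty compact connected subset. -/
def IsSubcontinuum {S : Type*} [TopologicalSpace S] (K : Set S) : Prop :=
  IsCompact K ∧ IsConnected K

/-- `X` is an indecomposable continuum: a nonempty compact connected Hausdorff space which is not
the union of two proper subcontinua. -/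
def IsIndecomposableContinuum (X : Type*) [TopologicalSpace X] : Prop :=
  T2Space X ∧ CompactSpace X ∧ ConnectedSpace X ∧
    ¬ ∃ A B : Set X, IsSubcontinuum A ∧ IsSubcontinuum B ∧ A ≠ univ ∧ B ≠ univ ∧ A ∪ B = univ

/-- Jones's set function `T`: the complement of the set of all points that lie in the interior of
a subcontinuum of `S` disjoint from `A`. -/
def jonesT {S : Type*} [TopologicalSpace S] (A : Set S) : Set S :=
  {p | ∃ K : Set S, IsSubcontinuum K ∧ p ∈ interior K ∧ K ∩ A = ∅}ᶜ

/-- **Negative answer to Q1.** There is a nondegenerate metrizable indecomposable continuum `X` such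
that `X × X` contains subcontinua `V`, `W` with nonempty interiors and `V ∩ W = ∅`; in particular
`T(W)` is not the whole of `X × X`. -/
theorem result : ∃ (X : Type) (_ : TopologicalSpace X),
    TopologicalSpace.MetrizableSpace X ∧ Nontrivial X ∧ IsIndecomposableContinuum X ∧
      ∃ V W : Set (X × X), IsSubcontinuum V ∧ IsSubcontinuum W ∧ (interior V).Nonempty ∧
        (interior W).Nonempty ∧ V ∩ W = ∅ ∧ jonesT W ≠ univ := by
  refine ⟨Helper546_folded.Lim, inferInstance, inferInstance, inferInstance,
    ⟨inferInstance, inferInstance, inferInstance, ?_⟩, Helper546_folded.KNear,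
    Helper546_folded.KFar, ?_, ?_, Helper546_folded.interior_KNear, Helper546_folded.interior_KFar,
    Helper546_folded.disjoint_K.inter_eq, ?_⟩
  · rintro ⟨A, B, hA, hB, hA', hB', hAB⟩
    rcases Helper546_folded.indecomposable A B hA.2.isPreconnected hA.1.isClosed hB.1.isClosed hAB
      with h | h
    · exact hA' h
    · exact hB' h
  · exact ⟨Helper546_folded.isClosed_KNear.isCompact,
      Helper546_folded.interior_KNear.mono interior_subset, Helper546_folded.isPreconnected_KNear⟩
  · exact ⟨Helper546_folded.isClosed_KFar.isCompact,
      Helper546_folded.interior_KFar.mono interior_subset, Helper546_folded.isPreconnected_KFar⟩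
  · obtain ⟨p, hp⟩ := Helper546_folded.interior_KNear
    intro h
    have h1 : p ∈ jonesT Helper546_folded.KFar := by rw [h]; trivial
    exact h1 ⟨Helper546_folded.KNear, ⟨Helper546_folded.isClosed_KNear.isCompact,
      ⟨p, interior_subset hp⟩, Helper546_folded.isPreconnected_KNear⟩, hp,
      Helper546_folded.disjoint_K.inter_eq⟩

end Pool.Agent.Results.MP_cdfe0d_gt.DisjointContinua
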